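import Pool.Agent.helper44.MT.CO1
import Pool.Agent.helper11.MK.Defs

/-!
# Two primes in different clusters among four, p-adic form
-/

namespace Pool.Agent.helper85.QD

open Finset Pool.Agent.helper39.MT Pool.Agent.helper11.MK

/-- a positive integer all of whose prime powers divide the integer `z` divides `z` -/
theorem tpc_dvd_of_prime_pow {u : ℕ} (hu : 0 < u) (z : ℤ)
    (h : ∀ p : ℕ, p.Prime → ((p ^ u.factorization p : ℕ) : ℤ) ∣ z) : (u : ℤ) ∣ z := by
  rw [Int.natCast_dvd]
  rcases Nat.eq_zero_or_pos z.natAbs with hz | hz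
  · rw [hz]; exact dvd_zero _
  · refine (Nat.factorization_prime_le_iff_dvd hu.ne' hz.ne').mp fun p hp => ?_
    exact (hp.pow_dvd_iff_le_factorization hz.ne').mp (Int.natCast_dvd.mp (h p hp))

/-- Two primes in different clusters: local solvability gives a pair `(i, j)` of different clusters
with infinitely many solutions. -/
theorem two_primes_cluster (h4 : CM4_stmt) : ∃ kc : ℕ, 1 ≤ kc ∧ ∀ (u : Fin (4 * kc) → ℕ) (e : Fin (4 * kc) → ℤ),
    (∀ i, 0 < u i) → Function.Injective e →
    (∀ p : ℕ, p.Prime → ∃ n : ℤ, ∀ i, ((p ^ (u i).factorization p : ℕ) : ℤ) ∣ n + e i ∧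
      ¬ ((p ^ ((u i).factorization p + 1) : ℕ) : ℤ) ∣ n + e i) →
    ∃ i j, cl4 i ≠ cl4 j ∧ InfSol (u i) (u j) (e i - e j) := by
  obtain ⟨kc, hkc, hmain⟩ := h4
  refine ⟨kc, hkc, fun u e hu he hloc => ?_⟩
  obtain ⟨k, hk⟩ : ∃ k, k = 4 * kc := ⟨_, rfl⟩
  set m : ℕ := ∑ i, u i with hm
  have hum : ∀ i, u i ≤ m := fun i =>
    Finset.single_le_sum (f := u) (fun j _ => Nat.zero_le _) (Finset.mem_univ i)
  -- the primes `≤ k + m`: all primes `≤ k`, all primes dividing some `u i`
  set S : Finset ℕ := (Finset.range (k + m + 1)).filter Nat.Prime with hS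
  have hSmem : ∀ p, p ∈ S ↔ p ≤ k + m ∧ p.Prime := by
    intro p
    simp only [hS, Finset.mem_filter, Finset.mem_range]
    constructor
    · rintro ⟨h1, h2⟩; exact ⟨by omega, h2⟩
    · rintro ⟨h1, h2⟩; exact ⟨by omega, h2⟩
  have hfac : ∀ i p, (u i).factorization p < m + 1 := by
    intro i p
    have h1 := Nat.factorization_lt (n := u i) p (hu i).ne'
    have h2 := hum i
    omega
  set s : ℕ := m + 1 with hs
  set Q : ℕ := ∏ p ∈ S, p ^ s with hQ
  have hQpos : 0 < Q := Finset.prod_pos fun p hp => pow_pos ((hSmem p).mp hp).2.pos _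
  have hpQ : ∀ p ∈ S, p ^ s ∣ Q := fun p hp => Finset.dvd_prod_of_mem (fun p => p ^ s) hp
  -- the residue class
  have hchoose : ∀ p : ℕ, ∃ n : ℤ, p.Prime → ∀ i,
      ((p ^ (u i).factorization p : ℕ) : ℤ) ∣ n + e i ∧
      ¬ ((p ^ ((u i).factorization p + 1) : ℕ) : ℤ) ∣ n + e i := by
    intro p
    by_cases hp : p.Prime
    · obtain ⟨n, hn⟩ := hloc p hp
      exact ⟨n, fun _ => hn⟩
    · exact ⟨0, fun h => absurd h hp⟩
  choose nn hnn using hchoose
  obtain ⟨n₀, hn₀⟩ := co1_crt_int S (fun p hp => ((hSmem p).mp hp).2) s nn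
  have hn₀' : ∀ p ∈ S, ∀ t : ℕ, t ≤ s → ∀ i, (((p ^ t : ℕ) : ℤ) ∣ (n₀ : ℤ) + e i ↔
      ((p ^ t : ℕ) : ℤ) ∣ nn p + e i) := by
    intro p hp t ht i
    have h1 : ((p ^ t : ℕ) : ℤ) ∣ (n₀ : ℤ) - nn p :=
      dvd_trans (by exact_mod_cast pow_dvd_pow p ht) (hn₀ p hp)
    have h2 : (n₀ : ℤ) + e i = ((n₀ : ℤ) - nn p) + (nn p + e i) := by ring
    rw [h2]
    exact dvd_add_right h1
  have hdiv : ∀ i, (u i : ℤ) ∣ (n₀ : ℤ) + e i := by
    intro i
    refine tpc_dvd_of_prime_pow (hu i) _ fun p hp => ?_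
    by_cases hpS : p ∈ S
    · exact (hn₀' p hpS _ (hfac i p).le i).mpr (hnn p hp i).1
    · have h1 : (u i).factorization p = 0 := by
        refine Nat.factorization_eq_zero_of_not_dvd fun hd => hpS ((hSmem p).mpr ⟨?_, hp⟩)
        have := (Nat.le_of_dvd (hu i) hd).trans (hum i)
        omega
      rw [h1, pow_zero]
      simp
  have hdvdQ : ∀ i, u i ∣ Q := by
    intro i
    have h1 : (u i : ℤ) ∣ (Q : ℤ) := by
      refine tpc_dvd_of_prime_pow (hu i) _ fun p hp => ?_
      by_cases hpS : p ∈ S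
      · exact_mod_cast (pow_dvd_pow p (hfac i p).le).trans (hpQ p hpS)
      · have h1 : (u i).factorization p = 0 := by
          refine Nat.factorization_eq_zero_of_not_dvd fun hd => hpS ((hSmem p).mpr ⟨?_, hp⟩)
          have := (Nat.le_of_dvd (hu i) hd).trans (hum i)
          omega
        rw [h1, pow_zero]
        simp
    exact_mod_cast h1
  choose A hA using hdvdQ
  choose B hB using hdiv
  have hApos : ∀ i, 0 < A i := by
    intro i
    rcases Nat.eq_zero_or_pos (A i) with h | h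
    · rw [hA i, h, mul_zero] at hQpos
      exact absurd hQpos (lt_irrefl _)
    · exact h
  have hu0 : ∀ i, (u i : ℤ) ≠ 0 := fun i => by exact_mod_cast (hu i).ne'
  have hAZ : ∀ i, (Q : ℤ) = u i * A i := fun i => by exact_mod_cast hA i
  have hdet : ∀ i j, i ≠ j → (A i : ℤ) * B j ≠ A j * B i := by
    intro i j hij h
    have h1 : (Q : ℤ) * (n₀ + e j) = Q * (n₀ + e i) := by
      calc (Q : ℤ) * (n₀ + e j) = (u i * A i) * (u j * B j) := by rw [← hAZ i, ← hB j]
        _ = u i * u j * (A i * B j) := by ring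
        _ = u i * u j * (A j * B i) := by rw [h]
        _ = (u j * A j) * (u i * B i) := by ring
        _ = Q * (n₀ + e i) := by rw [← hAZ j, ← hB i]
    have h2 := mul_left_cancel₀ (by exact_mod_cast hQpos.ne') h1
    exact hij (he (by linarith : e i = e j))
  -- admissibility
  have hadm : ∀ p : ℕ, p.Prime → ∃ n : ℕ, ∀ i, ¬ (p : ℤ) ∣ A i * n + B i := by
    intro p hp
    by_cases hpS : p ∈ S
    · refine ⟨0, fun i hd => ?_⟩
      rw [Nat.cast_zero, mul_zero, zero_add] at hd
      have h1 : ((p ^ ((u i).factorization p + 1) : ℕ) : ℤ) ∣ (n₀ : ℤ) + e i := by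
        rw [hB i, pow_succ, Nat.cast_mul]
        refine mul_dvd_mul ?_ hd
        exact_mod_cast Nat.ordProj_dvd (u i) p
      exact (hnn p hp i).2 ((hn₀' p hpS _ (hfac i p) i).mp h1)
    · have hpk : k + m < p := by
        by_contra h
        exact hpS ((hSmem p).mpr ⟨by omega, hp⟩)
      have hpA : ∀ i, ¬ p ∣ A i := by
        intro i hd
        have h1 : p ∣ Q := by
          rw [hA i]
          exact hd.mul_left _
        obtain ⟨q, hq, hpq⟩ := (Prime.dvd_finsetProd_iff hp.prime _).mp h1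
        have h2 := hp.dvd_of_dvd_pow hpq
        have h3 := (Nat.prime_dvd_prime_iff_eq hp ((hSmem q).mp hq).2).mp h2
        exact hpS (h3 ▸ hq)
      -- pigeonhole
      by_contra hcon
      push Not at hcon
      choose f hf using hcon
      have hle : (range p).card ≤ (univ : Finset (Fin (4 * kc))).card := by
        refine Finset.card_le_card_of_injOn f (fun _ _ => Finset.mem_coe.mpr (Finset.mem_univ _)) ?_
        intro x hx y hy hxy
        have h1 := hf x
        have h2 := hf y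
        rw [← hxy] at h2
        have h3 : (p : ℤ) ∣ (A (f x) : ℤ) * ((x : ℤ) - y) := by
          have := dvd_sub h1 h2
          have h4 : (A (f x) : ℤ) * (x : ℤ) + B (f x) - (A (f x) * (y : ℤ) + B (f x))
              = (A (f x) : ℤ) * ((x : ℤ) - y) := by ring
          rwa [h4] at this
        have hpZ : Prime (p : ℤ) := Nat.prime_iff_prime_int.mp hp
        rcases hpZ.dvd_or_dvd h3 with h5 | h5
        · exact absurd (by exact_mod_cast h5) (hpA (f x))
        · have h6 : (y : ℤ) ≡ x [ZMOD (p : ℤ)] := Int.modEq_iff_dvd.mpr h5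
          have h7 : y ≡ x [MOD p] := Int.natCast_modEq_iff.mp h6
          have hx' : x < p := by simpa using hx
          have hy' : y < p := by simpa using hy
          exact (Nat.ModEq.eq_of_lt_of_lt h7 hy' hx').symm
      rw [Finset.card_range, Finset.card_univ, Fintype.card_fin] at hle
      omega
  have hN := hmain A B hApos hdet hadm
  -- one pair occurs infinitely often
  by_contra hcon
  push Not at hcon
  set T : Fin (4 * kc) × Fin (4 * kc) → Set ℕ := fun ij => {n : ℕ | cl4 ij.1 ≠ cl4 ij.2 ∧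
    ((A ij.1 : ℤ) * n + B ij.1).toNat.Prime ∧ ((A ij.2 : ℤ) * n + B ij.2).toNat.Prime} with hT
  have hTfin : ∀ ij, (T ij).Finite := by
    rintro ⟨i, j⟩
    by_cases hij : cl4 i = cl4 j
    · have : T (i, j) = ∅ := by
        ext n
        simp [hT, hij]
      rw [this]
      exact Set.finite_empty
    · by_contra hinf
      refine hcon i j hij ?_
      unfold InfSol
      have hcast : ∀ (n : ℕ) (l : Fin (4 * kc)), ((A l : ℤ) * n + B l).toNat.Prime →
          ((((A l : ℤ) * n + B l).toNat : ℕ) : ℤ) = (A l : ℤ) * n + B l := by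
        intro n l hp
        have h1 := hp.pos
        exact Int.toNat_of_nonneg (by omega)
      refine Set.Infinite.mono ?_ (Set.Infinite.image (f := fun n : ℕ =>
        (((A i : ℤ) * n + B i).toNat, ((A j : ℤ) * n + B j).toNat)) ?_ hinf)
      · rintro ⟨p, q⟩ ⟨n, ⟨_, h1, h2⟩, h3⟩
        simp only [Prod.mk.injEq] at h3 h1 h2
        obtain ⟨h4, h5⟩ := h3
        refine ⟨h4 ▸ h1, h5 ▸ h2, ?_⟩
        simp only
        rw [← h4, ← h5, hcast n i h1, hcast n j h2]
        have e1 : (u i : ℤ) * ((A i : ℤ) * n + B i) = Q * n + (n₀ + e i) := by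
          rw [hAZ i, hB i]; ring
        have e2 : (u j : ℤ) * ((A j : ℤ) * n + B j) = Q * n + (n₀ + e j) := by
          rw [hAZ j, hB j]; ring
        rw [e1, e2]
        ring
      · rintro n ⟨_, h1, h2⟩ n' ⟨_, h1', h2'⟩ h3
        simp only [Prod.mk.injEq] at h3 h1 h2 h1' h2'
        have h4 : (A i : ℤ) * n + B i = A i * n' + B i := by
          rw [← hcast n i h1, ← hcast n' i h1', h3.1]
        have h5 : (A i : ℤ) * n = A i * n' := by linarith
        have h6 := mul_left_cancel₀ (by exact_mod_cast (hApos i).ne') h5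
        exact_mod_cast h6
  have hunion : (⋃ ij, T ij).Finite := Set.finite_iUnion hTfin
  obtain ⟨N, hN'⟩ := hunion.bddAbove
  obtain ⟨n, hn, i, j, hij, hi, hj⟩ := hN (N + 1)
  have h1 : n ∈ ⋃ ij, T ij := Set.mem_iUnion.mpr ⟨(i, j), hij, hi, hj⟩
  have h2 := hN' h1
  omega

end Pool.Agent.helper85.QD
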