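import Pool.Agent.helper85.QD.Quot

/-!
# A third of the elements of every large, almost invariant finite set of rationals
-/

namespace Pool.Agent.helper85.QD

open Finset Pool.Agent.helper11.MK

/-- a symmetric set of elements of a commutative group which contains a third of the quotients of
every finite set contains a third of every almost invariant finite set. -/
theorem folner {G : Type} [CommGroup G] [DecidableEq G] (H : Subgroup G) (R : G → Prop)
    [DecidablePred R] (hR : ∀ x, R x → R x⁻¹)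
    (hpairs : ∀ ε : ℝ, 0 < ε → ∃ K : ℕ, ∀ S : Finset G, (∀ x ∈ S, x ∈ H) →
      (1 / 3 - ε) * (#S : ℝ) ^ 2 - K * #S ≤ #{p ∈ S ×ˢ S | p.1 ≠ p.2 ∧ R (p.1 / p.2)})
    {ε : ℝ} (hε : 0 < ε) : ∃ (E : Finset G) (δ : ℝ) (n₀ : ℕ), 0 < δ ∧ (∀ e ∈ E, e ∈ H) ∧
      ∀ F : Finset G, (∀ x ∈ F, x ∈ H) → n₀ ≤ #F →
        (∀ e ∈ E, (#{x ∈ F | e * x ∉ F} : ℝ) ≤ δ * #F) → (1 / 3 - ε) * (#F : ℝ) ≤ #{x ∈ F | R x} := by
  by_cases hε3 : 1 / 3 ≤ ε
  · refine ⟨∅, 1, 0, one_pos, by simp, fun F _ _ _ => ?_⟩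
    have h1 : (0 : ℝ) ≤ #F := Nat.cast_nonneg _
    have h2 : (0 : ℝ) ≤ #{x ∈ F | R x} := Nat.cast_nonneg _
    nlinarith
  push Not at hε3
  by_contra hcon
  push Not at hcon
  have hkey : ∀ r : ℕ, ∃ S : Finset G, (∀ x ∈ S, x ∈ H) ∧ #S = r ∧
      (#{p ∈ S ×ˢ S | p.1 ≠ p.2 ∧ R (p.1 / p.2)} : ℝ) ≤ (1 / 3 - ε / 2) * (r : ℝ) ^ 2 := by
    intro r
    induction r with
    | zero => exact ⟨∅, by simp, rfl, by simp⟩
    | succ r ih =>
      obtain ⟨S, hSH, hSr, hS⟩ := ih
      obtain ⟨n₀, hn₀⟩ := exists_nat_gt (2 * (r : ℝ) / ε)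
      obtain ⟨F, hFH, hFn, hFE, hF⟩ := hcon (S.image fun s => s⁻¹) (ε / 4) (n₀ + r + 1) (by positivity)
        (by
          intro e he
          rw [mem_image] at he
          obtain ⟨s, hs, rfl⟩ := he
          exact H.inv_mem (hSH s hs))
      -- the number of bad quotients
      set f : G → ℕ := fun x => #{s ∈ S | R (x / s)} with hf
      have hsum : (∑ x ∈ F, f x : ℝ) ≤ r * ((1 / 3 - ε) * #F + ε / 4 * #F) := by
        have e1 : (∑ x ∈ F, f x : ℝ) = ∑ s ∈ S, (#{x ∈ F | R (x / s)} : ℝ) := by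
          have h1 : ∑ x ∈ F, f x = ∑ s ∈ S, #{x ∈ F | R (x / s)} := by
            simp only [hf, card_filter]
            exact sum_comm
          exact_mod_cast h1
        rw [e1]
        calc ∑ s ∈ S, (#{x ∈ F | R (x / s)} : ℝ) ≤ ∑ s ∈ S, ((1 / 3 - ε) * #F + ε / 4 * #F) := by
              refine sum_le_sum fun s hs => ?_
              have h1 : #{x ∈ F | R (x / s)} ≤ #{x ∈ F | R x} + #{x ∈ F | s⁻¹ * x ∉ F} := by
                have h2 : #{x ∈ F | R (x / s)} =
                    #{x ∈ F | R (x / s) ∧ s⁻¹ * x ∈ F} + #{x ∈ F | R (x / s) ∧ s⁻¹ * x ∉ F} := by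
                  rw [← card_filter_add_card_filter_not (s := {x ∈ F | R (x / s)})
                    (fun x => s⁻¹ * x ∈ F), filter_filter, filter_filter]
                rw [h2]
                refine Nat.add_le_add ?_ ?_
                · refine card_le_card_of_injOn (fun x => s⁻¹ * x) ?_ ?_
                  · intro x hx
                    rw [mem_coe, mem_filter] at hx
                    rw [mem_coe, mem_filter]
                    refine ⟨hx.2.2, ?_⟩
                    have := hx.2.1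
                    rwa [div_eq_mul_inv, mul_comm] at this
                  · intro x _ y _ h
                    exact mul_left_cancel h
                · refine card_le_card fun x hx => ?_
                  rw [mem_filter] at hx ⊢
                  exact ⟨hx.1, hx.2.2⟩
              have h2 : (#{x ∈ F | R (x / s)} : ℝ) ≤ #{x ∈ F | R x} + #{x ∈ F | s⁻¹ * x ∉ F} := by
                exact_mod_cast h1
              have h3 := hFE s⁻¹ (mem_image_of_mem _ hs)
              linarith
          _ = r * ((1 / 3 - ε) * #F + ε / 4 * #F) := by rw [sum_const, nsmul_eq_mul, hSr]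
      have hex : ∃ x ∈ F \ S, (f x : ℝ) ≤ r * (1 / 3 - ε / 2) := by
        by_contra hno
        push Not at hno
        have hcard : (#F : ℝ) - r ≤ #(F \ S) := by
          have h1 := le_card_sdiff S F
          have h2 : (#F : ℝ) ≤ #(F \ S) + #S := by exact_mod_cast (by omega : #F ≤ #(F \ S) + #S)
          rw [hSr] at h2
          linarith
        have hne : (F \ S).Nonempty := by
          rw [← card_pos]
          have h1 := le_card_sdiff S F
          omega
        rcases Nat.eq_zero_or_pos r with h0 | h0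
        · obtain ⟨x, hx⟩ := hne
          have h1 := hno x hx
          have h2 : f x = 0 := by
            have : S = ∅ := card_eq_zero.1 (hSr.trans h0)
            simp [hf, this]
          rw [h2, h0] at h1
          simp at h1
        · have h1 : ((#F : ℝ) - r) * (r * (1 / 3 - ε / 2)) ≤ ∑ x ∈ F, (f x : ℝ) := by
            calc ((#F : ℝ) - r) * (r * (1 / 3 - ε / 2)) ≤ #(F \ S) * (r * (1 / 3 - ε / 2)) := by
                  refine mul_le_mul_of_nonneg_right hcard ?_
                  have : (0 : ℝ) ≤ r := Nat.cast_nonneg _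
                  have : 0 ≤ 1 / 3 - ε / 2 := by linarith
                  positivity
              _ = ∑ x ∈ F \ S, (r * (1 / 3 - ε / 2) : ℝ) := by rw [sum_const, nsmul_eq_mul]
              _ ≤ ∑ x ∈ F \ S, (f x : ℝ) := sum_le_sum fun x hx => (hno x hx).le
              _ ≤ ∑ x ∈ F, (f x : ℝ) :=
                  sum_le_sum_of_subset_of_nonneg sdiff_subset fun x _ _ => Nat.cast_nonneg _
          have h2 := h1.trans hsum
          have hr : (0 : ℝ) < r := by exact_mod_cast h0
          have h3 : ((#F : ℝ) - r) * (1 / 3 - ε / 2) ≤ (1 / 3 - ε) * #F + ε / 4 * #F := by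
            have h4 : r * (((#F : ℝ) - r) * (1 / 3 - ε / 2)) ≤ r * ((1 / 3 - ε) * #F + ε / 4 * #F) := by
              linarith
            exact le_of_mul_le_mul_left h4 hr
          have h4 : (n₀ : ℝ) ≤ #F := by exact_mod_cast (by omega : n₀ ≤ #F)
          rw [div_lt_iff₀ hε] at hn₀
          have h5 : 2 * (r : ℝ) < #F * ε := lt_of_lt_of_le hn₀ (by gcongr)
          nlinarith
      obtain ⟨x, hx, hfx⟩ := hex
      rw [mem_sdiff] at hx
      refine ⟨insert x S, ?_, by rw [card_insert_of_notMem hx.2, hSr], ?_⟩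
      · intro y hy
        rw [mem_insert] at hy
        rcases hy with rfl | hy
        · exact hFH y hx.1
        · exact hSH y hy
      · have hsub : {p ∈ insert x S ×ˢ insert x S | p.1 ≠ p.2 ∧ R (p.1 / p.2)} ⊆
            ({p ∈ S ×ˢ S | p.1 ≠ p.2 ∧ R (p.1 / p.2)} ∪ ({s ∈ S | R (x / s)}.image fun s => (x, s))) ∪
            ({s ∈ S | R (x / s)}.image fun s => (s, x)) := by
          rintro ⟨a, b⟩ hp
          simp only [mem_filter, mem_product, mem_insert] at hp
          simp only [mem_union, mem_filter, mem_product, mem_image]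
          obtain ⟨⟨ha, hb⟩, hne, hRab⟩ := hp
          rcases ha with rfl | ha
          · rcases hb with rfl | hb
            · exact absurd rfl hne
            · exact Or.inl (Or.inr ⟨b, ⟨hb, hRab⟩, rfl⟩)
          · rcases hb with rfl | hb
            · refine Or.inr ⟨a, ⟨ha, ?_⟩, rfl⟩
              have := hR _ hRab
              rwa [inv_div] at this
            · exact Or.inl (Or.inl ⟨⟨ha, hb⟩, hne, hRab⟩)
        have h1 := (card_le_card hsub).trans ((card_union_le _ _).trans (Nat.add_le_add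
          ((card_union_le _ _).trans (Nat.add_le_add_left card_image_le _)) card_image_le))
        have h2 : (#{p ∈ insert x S ×ˢ insert x S | p.1 ≠ p.2 ∧ R (p.1 / p.2)} : ℝ) ≤
            #{p ∈ S ×ˢ S | p.1 ≠ p.2 ∧ R (p.1 / p.2)} + f x + f x := by exact_mod_cast h1
        push_cast
        nlinarith
  -- the contradiction
  obtain ⟨K, hK⟩ := hpairs (ε / 4) (by positivity)
  obtain ⟨n, hn⟩ := exists_nat_gt (4 * (K : ℝ) / ε)
  obtain ⟨S, hSH, hSn, hS⟩ := hkey n
  have h1 := hK S hSH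
  rw [hSn] at h1
  have h2 := h1.trans hS
  rw [div_lt_iff₀ hε] at hn
  have hn0 : (0 : ℝ) < n := by
    have h3 : (0 : ℝ) ≤ K := Nat.cast_nonneg _
    by_contra hle
    push Not at hle
    nlinarith
  nlinarith

/-- scaling. -/
lemma Quot.scale {c : ℤ} {x y : ℚ} {l : ℚ} (hl : l ≠ 0) : Quot c (l * x) (l * y) ↔ Quot c x y := by
  unfold Quot
  have : ∀ pq : ℕ × ℕ, (((pq.1 : ℚ) - c) * (l * y) = ((pq.2 : ℚ) - c) * (l * x) ↔
      ((pq.1 : ℚ) - c) * y = ((pq.2 : ℚ) - c) * x) := by
    intro pq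
    constructor
    · intro h
      exact mul_left_cancel₀ hl (by linear_combination h)
    · intro h
      linear_combination l * h
  simp only [this]

lemma Quot.div {c : ℤ} {x y : ℚ} (hy : y ≠ 0) : Quot c (x / y) 1 ↔ Quot c x y := by
  rw [← Quot.scale hy (x := x / y) (y := 1), mul_div_cancel₀ _ hy, mul_one]

open Classical in
/-- **A third of the rationals.** -/
theorem quot_folner (h4 : CM4_stmt) (c : ℤ) (hc : c ≠ 0) (H : Subgroup ℚˣ) (hH : ∀ x ∈ H, (0 : ℚ) < (x : ℚ) ∧
    ∀ p : ℕ, p.Prime → (p : ℤ) ∣ c → padicValRat p (x : ℚ) = 0) {ε : ℝ} (hε : 0 < ε) :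
    ∃ (E : Finset ℚˣ) (δ : ℝ) (n₀ : ℕ), 0 < δ ∧ (∀ e ∈ E, e ∈ H) ∧
      ∀ F : Finset ℚˣ, (∀ x ∈ F, x ∈ H) → n₀ ≤ #F →
        (∀ e ∈ E, (#{x ∈ F | e * x ∉ F} : ℝ) ≤ δ * #F) →
        (1 / 3 - ε) * (#F : ℝ) ≤ #(F.filter fun x : ℚˣ => Quot c (x : ℚ) 1) := by
  refine folner H (fun x : ℚˣ => Quot c (x : ℚ) 1) ?_ ?_ hε
  · intro x hx
    have h1 := hx.symm'
    have h2 := (Quot.div (c := c) (x := 1) (y := (x : ℚ)) x.ne_zero).2 h1
    rwa [one_div, ← Units.val_inv_eq_inv_val] at h2
  · intro ε hε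
    obtain ⟨K, hK⟩ := quotients_third h4 hε
    refine ⟨K, fun S hS => ?_⟩
    have hinj : Function.Injective (fun x : ℚˣ => (x : ℚ)) := Units.val_injective
    have h1 := hK c hc (S.image fun x : ℚˣ => (x : ℚ)) (by
      intro x hx
      rw [mem_image] at hx
      obtain ⟨u, hu, rfl⟩ := hx
      exact (hH u (hS u hu)).1) (by
      intro x hx
      rw [mem_image] at hx
      obtain ⟨u, hu, rfl⟩ := hx
      exact (hH u (hS u hu)).2)
    rw [card_image_of_injective _ hinj] at h1
    refine h1.trans ?_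
    have h2 : #{p ∈ (S.image fun x : ℚˣ => (x : ℚ)) ×ˢ (S.image fun x : ℚˣ => (x : ℚ)) |
        p.1 ≠ p.2 ∧ Quot c p.1 p.2} ≤
        #{p ∈ S ×ˢ S | p.1 ≠ p.2 ∧ Quot c ((p.1 / p.2 : ℚˣ) : ℚ) 1} := by
      refine card_le_card_of_surjOn (fun p => ((p.1 : ℚ), (p.2 : ℚ))) ?_
      rintro ⟨a, b⟩ hp
      rw [mem_coe, mem_filter, mem_product, mem_image, mem_image] at hp
      obtain ⟨⟨⟨u, hu, rfl⟩, ⟨v, hv, rfl⟩⟩, hne, hq⟩ := hp
      refine ⟨(u, v), ?_, rfl⟩
      rw [mem_coe, mem_filter, mem_product]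
      refine ⟨⟨hu, hv⟩, fun h => hne (by simp only at h; rw [h]), ?_⟩
      simp only
      rw [Units.val_div_eq_div_val]
      exact (Quot.div v.ne_zero).2 hq
    exact_mod_cast h2

open Classical in
/-- **A third of the powers of a rational number.** -/
theorem powers_third (h4 : CM4_stmt) (c : ℤ) (hc : c ≠ 0) (g : ℚ) (hg : 0 < g) (hg1 : g ≠ 1)
    (hgc : ∀ p : ℕ, p.Prime → (p : ℤ) ∣ c → padicValRat p g = 0) {ε : ℝ} (hε : 0 < ε) :
    ∃ L₀ : ℕ, ∀ (M : ℤ) (L : ℕ), L₀ ≤ L →
      (1 / 3 - ε) * (L : ℝ) ≤ #{t ∈ Finset.Ico M (M + L) | Quot c (g ^ t) 1} := by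
  set u : ℚˣ := Units.mk0 g hg.ne' with hu
  have huv : ∀ t : ℤ, ((u ^ t : ℚˣ) : ℚ) = g ^ t := by
    intro t
    rw [Units.val_zpow_eq_zpow_val, hu, Units.val_mk0]
  have hinj : Function.Injective (fun t : ℤ => u ^ t) := by
    intro s t h
    have h1 : g ^ s = g ^ t := by rw [← huv, ← huv]; exact congrArg _ h
    exact zpow_right_injective₀ hg hg1 h1
  obtain ⟨E, δ, n₀, hδ, hE, hF⟩ := quot_folner h4 c hc (Subgroup.zpowers u) (by
    intro x hx
    rw [Subgroup.mem_zpowers_iff] at hx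
    obtain ⟨t, rfl⟩ := hx
    rw [huv]
    refine ⟨zpow_pos hg t, fun p hp hpc => ?_⟩
    have := Fact.mk hp
    have h1 := hgc p hp hpc
    rw [padicValRat.zpow g, h1, mul_zero]) hε
  have hE' : ∀ e : ℚˣ, ∃ s : ℤ, e ∈ E → u ^ s = e := by
    intro e
    by_cases he : e ∈ E
    · obtain ⟨s, hs⟩ := Subgroup.mem_zpowers_iff.1 (hE e he)
      exact ⟨s, fun _ => hs⟩
    · exact ⟨0, fun h => absurd h he⟩
  choose s hs using hE'
  obtain ⟨L₁, hL₁⟩ := exists_nat_ge ((∑ e ∈ E, (s e).natAbs : ℕ) / δ : ℝ)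
  refine ⟨max n₀ L₁, fun M L hL => ?_⟩
  set F : Finset ℚˣ := (Finset.Ico M (M + L)).image fun t : ℤ => u ^ t with hFdef
  have hFc : #F = L := by
    rw [hFdef, card_image_of_injective _ hinj, Int.card_Ico]
    simp
  have h1 := hF F (by
      intro x hx
      rw [hFdef, mem_image] at hx
      obtain ⟨t, -, rfl⟩ := hx
      exact Subgroup.mem_zpowers_iff.2 ⟨t, rfl⟩) (by
      rw [hFc]
      exact (le_max_left _ _).trans hL) (by
      intro e he
      have hcard : #{x ∈ F | e * x ∉ F} ≤ (s e).natAbs := by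
        have h2 : {x ∈ F | e * x ∉ F} ⊆ ({t ∈ Finset.Ico M (M + L) | s e + t ∉ Finset.Ico M (M + L)}).image
            fun t : ℤ => u ^ t := by
          intro x hx
          rw [mem_filter, hFdef, mem_image] at hx
          obtain ⟨⟨t, ht, rfl⟩, hx2⟩ := hx
          rw [mem_image]
          refine ⟨t, mem_filter.2 ⟨ht, fun hst => hx2 ?_⟩, rfl⟩
          rw [mem_image]
          refine ⟨s e + t, hst, ?_⟩
          rw [zpow_add, hs e he]
        refine (card_le_card h2).trans (card_image_le.trans ?_)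
        rcases le_or_gt 0 (s e) with h3 | h3
        · have h4 : {t ∈ Finset.Ico M (M + L) | s e + t ∉ Finset.Ico M (M + L)} ⊆
              Finset.Ico (M + L - s e) (M + L) := by
            intro t ht
            rw [mem_filter, mem_Ico, mem_Ico] at ht
            rw [mem_Ico]
            omega
          refine (card_le_card h4).trans ?_
          rw [Int.card_Ico]
          omega
        · have h4 : {t ∈ Finset.Ico M (M + L) | s e + t ∉ Finset.Ico M (M + L)} ⊆
              Finset.Ico M (M - s e) := by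
            intro t ht
            rw [mem_filter, mem_Ico, mem_Ico] at ht
            rw [mem_Ico]
            omega
          refine (card_le_card h4).trans ?_
          rw [Int.card_Ico]
          omega
      have h5 : (s e).natAbs ≤ ∑ e ∈ E, (s e).natAbs :=
        single_le_sum (f := fun e => (s e).natAbs) (fun _ _ => Nat.zero_le _) he
      have h6 : (#{x ∈ F | e * x ∉ F} : ℝ) ≤ (∑ e ∈ E, (s e).natAbs : ℕ) := by
        exact_mod_cast hcard.trans h5
      rw [hFc]
      rw [div_le_iff₀ hδ] at hL₁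
      have h7 : (L₁ : ℝ) ≤ L := by exact_mod_cast (le_max_right _ _).trans hL
      calc (#{x ∈ F | e * x ∉ F} : ℝ) ≤ (∑ e ∈ E, (s e).natAbs : ℕ) := h6
        _ ≤ L₁ * δ := hL₁
        _ ≤ L * δ := by gcongr
        _ = δ * L := mul_comm _ _)
  rw [hFc] at h1
  refine h1.trans ?_
  have h2 : #(F.filter fun x : ℚˣ => Quot c (x : ℚ) 1) ≤ #{t ∈ Finset.Ico M (M + L) | Quot c (g ^ t) 1} := by
    refine card_le_card_of_surjOn (fun t : ℤ => u ^ t) ?_
    intro x hx
    rw [mem_coe, mem_filter, hFdef, mem_image] at hx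
    obtain ⟨⟨t, ht, rfl⟩, hx2⟩ := hx
    refine ⟨t, ?_, rfl⟩
    rw [mem_coe, mem_filter]
    refine ⟨ht, ?_⟩
    rwa [huv] at hx2
  exact_mod_cast h2

end Pool.Agent.helper85.QD
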