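import Pool.Agent.helper85.QD.Quot

/-!
# A fixed `a`: a positive lower density of `b`
-/

namespace Pool.Agent.helper85.QD

open Finset Pool.Agent.helper39.MT Pool.Agent.helper85.MT

open Classical in
theorem fixed_a (c : ℤ) (hc : c ≠ 0) : ∃ P : ℕ, 0 < P ∧ IsCoprime (P : ℤ) c ∧
    ∀ a : ℕ, 0 < a → Nat.Coprime a P → IsCoprime (a : ℤ) c → ∃ δ : ℝ, 0 < δ ∧ ∃ N₀ : ℕ,
      ∀ N : ℕ, N₀ ≤ N → δ * N ≤
        #((Icc 1 N).filter fun b : ℕ => Nat.Coprime a b ∧ IsCoprime (b : ℤ) c ∧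
          Quot c (b / a : ℚ) 1) := by
  obtain ⟨k, hk, H⟩ := ratio_delta_of two_primes_general
  obtain ⟨X, P, hXk, hP0, hPc, hX, hs⟩ := syndetic (fun u h1 h2 h3 => H c hc u h1 h2 h3)
  refine ⟨P, hP0, hPc, fun a ha haP hac => ?_⟩
  obtain ⟨δ, hδ, N₀, hN₀⟩ := density_fixed hc X P hXk hP0 hPc hX hs a ha haP hac
  refine ⟨δ, hδ, N₀, fun N hN => (hN₀ N hN).trans ?_⟩
  have h1 : #{b ∈ Icc 1 N | a ≠ b ∧ Nat.Coprime a b ∧ IsCoprime (b : ℤ) c ∧ SR c a b} ≤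
      #((Icc 1 N).filter fun b : ℕ => Nat.Coprime a b ∧ IsCoprime (b : ℤ) c ∧
          Quot c (b / a : ℚ) 1) := by
    refine card_le_card fun b hb => ?_
    rw [mem_filter] at hb ⊢
    refine ⟨hb.1, hb.2.2.1, hb.2.2.2.1, ?_⟩
    have h2 : Quot c (b : ℚ) (a : ℚ) := quot_of_SR (D := 1) one_pos (by simp) (by simp) hb.2.2.2.2
    have ha0 : (a : ℚ) ≠ 0 := by exact_mod_cast ha.ne'
    unfold Quot at h2 ⊢
    refine h2.mono ?_
    rintro ⟨p, q⟩ ⟨hp, hq, h3⟩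
    refine ⟨hp, hq, ?_⟩
    simp only at h3 ⊢
    field_simp
    linarith
  exact_mod_cast h1

end Pool.Agent.helper85.QD
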