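import Pool.Agent.helper11.MK.ES
import Pool.Agent.helper85.QD.TPC
import Pool.Agent.helper85.MT.RatioSets

/-!
# Quotients of shifted primes: a third of the quotients of every finite set of rationals
-/

namespace Pool.Agent.helper85.QD

open Finset Pool.Agent.helper39.MT Pool.Agent.helper11.MK Pool.Agent.helper85.MT

/-- `x / y = (p - c) / (q - c)` for infinitely many pairs of primes `p, q`. -/
def Quot (c : ℤ) (x y : ℚ) : Prop :=
  {pq : ℕ × ℕ | pq.1.Prime ∧ pq.2.Prime ∧ ((pq.1 : ℚ) - c) * y = ((pq.2 : ℚ) - c) * x}.Infinite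

lemma Quot.symm' {c : ℤ} {x y : ℚ} (h : Quot c x y) : Quot c y x := by
  unfold Quot at h ⊢
  refine (h.image (f := Prod.swap) (Prod.swap_injective.injOn)).mono ?_
  rintro ⟨q, p⟩ ⟨⟨p', q'⟩, ⟨h1, h2, h3⟩, h4⟩
  simp only [Prod.swap_prod_mk, Prod.mk.injEq] at h4
  obtain ⟨rfl, rfl⟩ := h4
  exact ⟨h2, h1, h3.symm⟩

/-- distinct integers prime to `c` in four clusters. -/
theorem ratio_cluster_nat (h4 : CM4_stmt) : ∃ kc : ℕ, 1 ≤ kc ∧ ∀ c : ℤ, c ≠ 0 → ∀ u : Fin (4 * kc) → ℕ,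
    Function.Injective u → (∀ i, 0 < u i) → (∀ i, IsCoprime (u i : ℤ) c) →
    ∃ i j, cl4 i ≠ cl4 j ∧ SR c (u i) (u j) := by
  obtain ⟨kc, hkc, H⟩ := two_primes_cluster h4
  refine ⟨kc, hkc, fun c hc u huinj hupos huc => ?_⟩
  have heinj : Function.Injective (fun i => c * (u i : ℤ)) := by
    intro i j h
    have h1 : (u i : ℤ) = u j := mul_left_cancel₀ hc h
    exact huinj (by exact_mod_cast h1)
  have hloc : ∀ p : ℕ, p.Prime → ∃ n : ℤ, ∀ i,
      ((p ^ (u i).factorization p : ℕ) : ℤ) ∣ n + c * (u i : ℤ) ∧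
        ¬ ((p ^ ((u i).factorization p + 1) : ℕ) : ℤ) ∣ n + c * (u i : ℤ) := by
    intro p hp
    have hpZ : Prime (p : ℤ) := Nat.prime_iff_prime_int.mp hp
    by_cases hpc : (p : ℤ) ∣ c
    · refine ⟨1, fun i => ?_⟩
      have hpu : ¬ p ∣ u i := by
        intro h
        exact hpZ.not_isUnit ((huc i).isUnit_of_dvd' (Int.natCast_dvd_natCast.mpr h) hpc)
      rw [Nat.factorization_eq_zero_of_not_dvd hpu]
      refine ⟨by simp, ?_⟩
      intro h
      simp only [zero_add, pow_one] at h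
      have h1 : (p : ℤ) ∣ 1 := (Int.dvd_add_left (Dvd.dvd.mul_right hpc _)).mp h
      exact hpZ.not_isUnit (isUnit_of_dvd_one h1)
    · refine ⟨0, fun i => ?_⟩
      rw [zero_add]
      constructor
      · exact Dvd.dvd.mul_left (Int.natCast_dvd_natCast.mpr (Nat.ordProj_dvd (u i) p)) c
      · intro h
        have hcopc : IsCoprime ((p ^ ((u i).factorization p + 1) : ℕ) : ℤ) c := by
          push_cast
          exact IsCoprime.pow_left ((Prime.coprime_iff_not_dvd hpZ).mpr hpc)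
        have h1 := hcopc.dvd_of_dvd_mul_left h
        have h2 : p ^ ((u i).factorization p + 1) ∣ u i := Int.natCast_dvd_natCast.mp h1
        exact Nat.pow_succ_factorization_not_dvd (hupos i).ne' hp h2
  obtain ⟨i, j, hij, hsol⟩ := H u (fun i => c * (u i : ℤ)) hupos heinj hloc
  refine ⟨i, j, hij, ?_⟩
  unfold SR
  have e : c * ((u i : ℤ) - u j) = c * (u i : ℤ) - c * (u j : ℤ) := by ring
  rw [e]
  exact hsol

/-- a common denominator of rationals prime to `c`. -/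
theorem clear_denominators {ι : Type*} [Fintype ι] {c : ℤ} (r : ι → ℚ) (hr : ∀ i, 0 < r i)
    (hval : ∀ i, ∀ p : ℕ, p.Prime → (p : ℤ) ∣ c → padicValRat p (r i) = 0) :
    ∃ (D : ℕ) (u : ι → ℕ), 0 < D ∧ (∀ i, 0 < u i) ∧ (∀ i, ((u i : ℕ) : ℚ) = D * r i) ∧
      (∀ i, IsCoprime (u i : ℤ) c) := by
  classical
  set D : ℕ := ∏ i, (r i).den with hD
  have hDpos : 0 < D := Finset.prod_pos fun i _ => (r i).pos
  have hden : ∀ i, (r i).den ∣ D := fun i => Finset.dvd_prod_of_mem _ (mem_univ i)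
  set u : ι → ℕ := fun i => (r i).num.toNat * (D / (r i).den) with hu
  have hnum : ∀ i, 0 < (r i).num := fun i => Rat.num_pos.mpr (hr i)
  have huD : ∀ i, ((u i : ℕ) : ℚ) = D * r i := by
    intro i
    have h1 : (((r i).num.toNat : ℕ) : ℚ) = ((r i).num : ℚ) := by
      have : (((r i).num.toNat : ℕ) : ℤ) = (r i).num := Int.toNat_of_nonneg (hnum i).le
      exact_mod_cast congrArg (Int.cast : ℤ → ℚ) this
    have hd0 : ((r i).den : ℚ) ≠ 0 := by exact_mod_cast (r i).pos.ne'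
    simp only [hu]
    rw [Nat.cast_mul, h1, Nat.cast_div (hden i) hd0]
    have h2 : r i = (r i).num / (r i).den := (Rat.num_div_den (r i)).symm
    conv_rhs => rw [h2]
    field_simp
  have hDq : (0 : ℚ) < D := by exact_mod_cast hDpos
  have hupos : ∀ i, 0 < u i := by
    intro i
    have : (0 : ℚ) < u i := by rw [huD]; exact mul_pos hDq (hr i)
    exact_mod_cast this
  have hpd : ∀ i, ∀ p : ℕ, p.Prime → (p : ℤ) ∣ c → ¬ p ∣ (r i).den ∧ ¬ (p : ℤ) ∣ (r i).num := by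
    intro i p hp hpc
    have := Fact.mk hp
    have h1 := hval i p hp hpc
    have hcop := (r i).reduced
    by_cases hdd : p ∣ (r i).den
    · exfalso
      have hnn : ¬ (p : ℤ) ∣ (r i).num := by
        intro hn
        have h2 : p ∣ (r i).num.natAbs := Int.natCast_dvd.mp hn
        exact hp.one_lt.ne' (Nat.dvd_one.mp (hcop.gcd_eq_one ▸ Nat.dvd_gcd h2 hdd))
      rw [padicValRat_def, padicValInt.eq_zero_of_not_dvd hnn] at h1
      have h3 := one_le_padicValNat_of_dvd (r i).pos.ne' hdd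
      omega
    · refine ⟨hdd, fun hn => ?_⟩
      rw [padicValRat_def, padicValNat.eq_zero_of_not_dvd hdd] at h1
      have h3 : 1 ≤ padicValInt p (r i).num := by
        rw [padicValInt]
        exact one_le_padicValNat_of_dvd (by
          have := hnum i
          omega) (Int.natCast_dvd.mp hn)
      omega
  refine ⟨D, u, hDpos, hupos, huD, fun i => ?_⟩
  rw [Int.isCoprime_iff_gcd_eq_one]
  by_contra hne
  obtain ⟨p, hp, hpd'⟩ := Nat.exists_prime_and_dvd hne
  have h1 : (p : ℤ) ∣ (u i : ℤ) := (Int.natCast_dvd_natCast.mpr hpd').trans (Int.gcd_dvd_left _ _)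
  have h2 : (p : ℤ) ∣ c := (Int.natCast_dvd_natCast.mpr hpd').trans (Int.gcd_dvd_right _ _)
  have h3 : p ∣ (r i).num.toNat * (D / (r i).den) := Int.natCast_dvd_natCast.mp h1
  rcases hp.dvd_mul.mp h3 with h4 | h4
  · have h5 : (p : ℤ) ∣ (r i).num := by
      have h6 := Int.natCast_dvd_natCast.mpr h4
      rwa [Int.toNat_of_nonneg (hnum i).le] at h6
    exact (hpd i p hp h2).2 h5
  · have h5 : p ∣ D := h4.trans (Nat.div_dvd_of_dvd (hden i))
    rw [hD] at h5
    obtain ⟨j, _, hj⟩ := (hp.prime.dvd_finsetProd_iff _).mp h5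
    exact (hpd j p hp h2).1 hj

/-- `SR` and `Quot`. -/
lemma quot_of_SR {c : ℤ} {a b D : ℕ} {x y : ℚ} (hD : 0 < D) (ha : (a : ℚ) = D * x)
    (hb : (b : ℚ) = D * y) (h : SR c a b) : Quot c y x := by
  unfold SR InfSol at h
  refine h.mono ?_
  rintro ⟨p, q⟩ ⟨hp, hq, he⟩
  refine ⟨hp, hq, ?_⟩
  simp only at he ⊢
  have hDq : (0 : ℚ) < D := by exact_mod_cast hD
  have he' : (a : ℚ) * p - b * q = c * ((a : ℚ) - b) := by
    exact_mod_cast congrArg (Int.cast : ℤ → ℚ) he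
  rw [ha, hb] at he'
  have h1 : (D : ℚ) * (((p : ℚ) - c) * x) = D * (((q : ℚ) - c) * y) := by linarith
  exact mul_left_cancel₀ hDq.ne' h1

/-- distinct rationals prime to `c` in four clusters. -/
theorem ratio_cluster (h4 : CM4_stmt) : ∃ kc : ℕ, 1 ≤ kc ∧ ∀ c : ℤ, c ≠ 0 → ∀ r : Fin 4 × Fin kc → ℚ,
    (∀ i, 0 < r i) → Function.Injective r →
    (∀ i, ∀ p : ℕ, p.Prime → (p : ℤ) ∣ c → padicValRat p (r i) = 0) →
    ∃ x y, x.1 ≠ y.1 ∧ Quot c (r x) (r y) := by
  obtain ⟨kc, hkc, H⟩ := ratio_cluster_nat h4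
  refine ⟨kc, hkc, fun c hc r hr hinj hval => ?_⟩
  obtain ⟨D, u, hD, hu, huD, huc⟩ := clear_denominators r hr hval
  have hDq : (0 : ℚ) < D := by exact_mod_cast hD
  have huinj : Function.Injective u := by
    intro i j h
    have h1 : ((u i : ℕ) : ℚ) = (u j : ℕ) := by rw [h]
    rw [huD, huD] at h1
    exact hinj (mul_left_cancel₀ hDq.ne' h1)
  obtain ⟨i, j, hij, hs⟩ := H c hc (fun i => u (finProdFinEquiv.symm i))
    (huinj.comp finProdFinEquiv.symm.injective) (fun i => hu _) (fun i => huc _)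
  exact ⟨finProdFinEquiv.symm j, finProdFinEquiv.symm i, hij.symm,
    quot_of_SR hD (huD _) (huD _) hs⟩

open Classical in
/-- **A third of the quotients.** -/
theorem quotients_third (h4 : CM4_stmt) {ε : ℝ} (hε : 0 < ε) : ∃ K : ℕ, ∀ c : ℤ, c ≠ 0 → ∀ S : Finset ℚ,
    (∀ x ∈ S, 0 < x) → (∀ x ∈ S, ∀ p : ℕ, p.Prime → (p : ℤ) ∣ c → padicValRat p x = 0) →
    (1 / 3 - ε) * (#S : ℝ) ^ 2 - K * #S ≤ #{p ∈ S ×ˢ S | p.1 ≠ p.2 ∧ Quot c p.1 p.2} := by
  obtain ⟨kc, hkc, H⟩ := ratio_cluster h4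
  obtain ⟨K, hK⟩ := es_third kc hε
  refine ⟨K, fun c hc S hS hval => hK (Quot c) S (fun x y h => h.symm') fun f hf hfS => ?_⟩
  exact H c hc f (fun i => hS _ (hfS i)) hf (fun i => hval _ (hfS i))

end Pool.Agent.helper85.QD
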